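import Pool.Agent.H17.SD.Targets

/-!
# The chain rule for the derivations of the field of a curve
-/

set_option autoImplicit false

open MvPolynomial SC Pool.Agent.H27.LV
open Pool.Agent.H92.SF Pool.Agent.H3.SF Pool.Agent.H17.SD

namespace Pool.Agent.H77.SFG

/-- the value of the derivative of a polynomial -/
theorem aeval_der {L F : Type} [Field L] [Field F] [Algebra L F] (p : Polynomial L) (θ : F) :
    Polynomial.aeval θ (Polynomial.derivative p) = ∑ i ∈ Finset.range (p.natDegree + 1),
      algebraMap L F (p.coeff i) * ((i : F) * θ ^ (i - 1)) := by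
  conv_lhs => rw [p.as_sum_range_C_mul_X_pow]
  rw [Polynomial.derivative_sum, map_sum]
  refine Finset.sum_congr rfl fun i _ => ?_
  rw [Polynomial.derivative_C_mul, Polynomial.derivative_X_pow, map_mul, map_mul, map_pow,
    Polynomial.aeval_C, Polynomial.aeval_X]
  simp

section

variable {R K : Type} [CommRing R] [Field K] (φ : R →+* K) (Δ : R → K)

/-- a derivation along a homomorphism -/
structure IsDer : Prop where
  add : ∀ x y, Δ (x + y) = Δ x + Δ y
  mul : ∀ x y, Δ (x * y) = φ x * Δ y + φ y * Δ x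

variable {φ Δ}

theorem IsDer.zero (h : IsDer φ Δ) : Δ 0 = 0 := by
  have h1 := h.add 0 0
  rw [add_zero] at h1
  exact left_eq_add.1 h1

theorem IsDer.one (h : IsDer φ Δ) : Δ 1 = 0 := by
  have h1 := h.mul 1 1
  rw [mul_one, map_one, one_mul] at h1
  exact left_eq_add.1 h1

theorem IsDer.pow (h : IsDer φ Δ) (x : R) (n : ℕ) :
    Δ (x ^ n) = (n : K) * φ x ^ (n - 1) * Δ x := by
  induction n with
  | zero =>
    rw [pow_zero, h.one]
    simp
  | succ n ih =>
    rw [pow_succ, h.mul, ih, map_pow, Nat.add_sub_cancel]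
    rcases n with _ | n
    · simp
    · rw [Nat.add_sub_cancel]
      push_cast
      ring

theorem IsDer.sum (h : IsDer φ Δ) {ι : Type} (s : Finset ι) (f : ι → R) :
    Δ (∑ i ∈ s, f i) = ∑ i ∈ s, Δ (f i) := by
  classical
  induction s using Finset.induction_on with
  | empty => rw [Finset.sum_empty, Finset.sum_empty, h.zero]
  | insert a s ha ih => rw [Finset.sum_insert ha, Finset.sum_insert ha, h.add, ih]

end

theorem pf_CHN (_h1 : T_ITA) (h2 : T_MPC) : T_CHN := by
  intro k F _ _ _ _ u θ dd J hind hfin hθ hdd hJI hJd hJq K _ _ φ D a jj b ul hjj hb hul hne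
  classical
  have hu : ∀ i, u i ∈ Bb k u := by
    intro i
    have h := ((aeval u : MvPolynomial (Fin 3) k →ₐ[k] F) :
      MvPolynomial (Fin 3) k →+* F).isIntegralElem_map (x := X i)
    have h' : ((aeval u : MvPolynomial (Fin 3) k →ₐ[k] F) :
      MvPolynomial (Fin 3) k →+* F) (X i) = u i := aeval_X u i
    rw [h'] at h
    exact h
  have hPB : PB k u θ ≤ Bb k u := by
    apply Algebra.adjoin_le
    intro x hx
    rcases hx with rfl | ⟨i, rfl⟩
    · exact hθ
    · exact hu i
  have hPA : PA k u ≤ PB k u θ := Algebra.adjoin_mono (Set.subset_insert _ _)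
  have hJA : ∀ P : MvPolynomial (Fin 3) k, aeval u P ∈ PA k u := by
    intro P
    show aeval u P ∈ Algebra.adjoin k (Set.range u)
    rw [Algebra.adjoin_range_eq_range_aeval]
    exact ⟨P, rfl⟩
  -- the operators
  let U : Fin 3 → Bb k u := fun l => ⟨u l, hu l⟩
  let B : Fin 3 → Bb k u → Bb k u := fun l x => ⟨aeval u J * dd l x, hPB (hJd x l x.2)⟩
  let JJ : Bb k u := ⟨aeval u J, hPB (hPA (hJA J))⟩
  have hjJ : jj = JJ := Subtype.ext hjj
  have hbB : ∀ l, b l = B l a := fun l => Subtype.ext (hb l)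
  have hulU : ∀ l, ul l = U l := fun l => Subtype.ext (hul l)
  let Δ : Bb k u → K := fun x => φ JJ * D (φ x) - ∑ l, φ (B l x) * D (φ (U l))
  have hΔ : ∀ x, Δ x = φ JJ * D (φ x) - ∑ l, φ (B l x) * D (φ (U l)) := fun x => rfl
  have hBadd : ∀ l x y, B l (x + y) = B l x + B l y := by
    intro l x y
    apply Subtype.ext
    show aeval u J * dd l ((x : F) + y) = aeval u J * dd l x + aeval u J * dd l y
    rw [map_add, mul_add]
  have hBmul : ∀ l x y, B l (x * y) = x * B l y + y * B l x := by
    intro l x y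
    apply Subtype.ext
    show aeval u J * dd l ((x : F) * y) = x * (aeval u J * dd l y) + y * (aeval u J * dd l x)
    rw [Derivation.leibniz, smul_eq_mul, smul_eq_mul]
    ring
  have hder : IsDer (φ : Bb k u →+* K) Δ := by
    constructor
    · intro x y
      simp only [hΔ, hBadd, map_add, add_mul, Finset.sum_add_distrib]
      ring
    · intro x y
      have e : ∀ l, φ (B l (x * y)) * D (φ (U l)) = φ x * (φ (B l y) * D (φ (U l))) +
          φ y * (φ (B l x) * D (φ (U l))) := by
        intro l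
        rw [hBmul, map_add, map_mul, map_mul]
        ring
      show Δ (x * y) = φ x * Δ y + φ y * Δ x
      rw [hΔ, hΔ, hΔ, Finset.sum_congr rfl fun l _ => e l, Finset.sum_add_distrib,
        ← Finset.mul_sum, ← Finset.mul_sum, map_mul, Derivation.leibniz, smul_eq_mul,
        smul_eq_mul]
      ring
  have hcst : ∀ c : k, Δ (algebraMap k (Bb k u) c) = 0 := by
    intro c
    rw [hΔ, AlgHom.commutes, Derivation.map_algebraMap, mul_zero, zero_sub, neg_eq_zero]
    apply Finset.sum_eq_zero
    intro l _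
    have e : B l (algebraMap k (Bb k u) c) = 0 := by
      apply Subtype.ext
      show aeval u J * dd l (algebraMap k F c) = 0
      rw [Derivation.map_algebraMap, mul_zero]
    rw [e, map_zero, zero_mul]
  have hU : ∀ j, Δ (U j) = 0 := by
    intro j
    have e : ∀ l, φ (B l (U j)) * D (φ (U l)) =
        if l = j then φ JJ * D (φ (U l)) else 0 := by
      intro l
      by_cases hlj : l = j
      · rw [if_pos hlj]
        have e2 : B l (U j) = JJ := by
          apply Subtype.ext
          show aeval u J * dd l (u j) = aeval u J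
          rw [hdd, if_pos hlj, mul_one]
        rw [e2]
      · rw [if_neg hlj]
        have e2 : B l (U j) = 0 := by
          apply Subtype.ext
          show aeval u J * dd l (u j) = 0
          rw [hdd, if_neg hlj, mul_zero]
        rw [e2, map_zero, zero_mul]
    rw [hΔ, Finset.sum_congr rfl fun l _ => e l, Finset.sum_ite_eq' Finset.univ j,
      if_pos (Finset.mem_univ j), sub_self]
  have hadj : ∀ (s : Set F) (hs : s ⊆ Bb k u), (∀ x (hx : x ∈ s), Δ ⟨x, hs hx⟩ = 0) →
      ∀ x (_ : x ∈ Algebra.adjoin k s) (h : x ∈ Bb k u), Δ ⟨x, h⟩ = 0 := by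
    intro s hs hs0 x hx
    have hle : Algebra.adjoin k s ≤ Bb k u := Algebra.adjoin_le hs
    induction hx using Algebra.adjoin_induction with
    | mem x hx => exact fun _ => hs0 x hx
    | algebraMap c => exact fun _ => hcst c
    | add x y hx hy ihx ihy =>
      intro h
      have e : (⟨x + y, h⟩ : Bb k u) = ⟨x, hle hx⟩ + ⟨y, hle hy⟩ := rfl
      rw [e, hder.add, ihx, ihy, add_zero]
    | mul x y hx hy ihx ihy =>
      intro h
      have e : (⟨x * y, h⟩ : Bb k u) = ⟨x, hle hx⟩ * ⟨y, hle hy⟩ := rfl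
      rw [e, hder.mul, ihx, ihy, mul_zero, mul_zero, add_zero]
  have hΔA : ∀ x (_ : x ∈ PA k u) (h : x ∈ Bb k u), Δ ⟨x, h⟩ = 0 := by
    apply hadj (Set.range u) (by rintro _ ⟨i, rfl⟩; exact hu i)
    rintro _ ⟨i, rfl⟩
    exact hU i
  -- the primitive element
  let T : Bb k u := ⟨θ, hθ⟩
  have hcoef : ∀ i, ((minpoly (kF k u) θ).coeff i : F) ∈ PA k u := by
    intro i
    obtain ⟨P, hP⟩ := h2 k F (Fin 3) u hind θ hθ i
    rw [hP]
    exact hJA P
  let c : ℕ → Bb k u := fun i => ⟨((minpoly (kF k u) θ).coeff i : F), hPB (hPA (hcoef i))⟩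
  have hc : ∀ i, Δ (c i) = 0 := fun i => hΔA _ (hcoef i) _
  have hsum0 : ∑ i ∈ Finset.range ((minpoly (kF k u) θ).natDegree + 1), c i * T ^ i = 0 := by
    apply Subtype.ext
    show (Bb k u).val (∑ i ∈ Finset.range ((minpoly (kF k u) θ).natDegree + 1), c i * T ^ i) = 0
    have h3 := minpoly.aeval (kF k u) θ
    rw [Polynomial.aeval_eq_sum_range] at h3
    rw [map_sum, ← h3]
    refine Finset.sum_congr rfl fun i _ => ?_
    rw [map_mul, map_pow, Algebra.smul_def]
    rfl
  let Q : Bb k u := ∑ i ∈ Finset.range ((minpoly (kF k u) θ).natDegree + 1),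
    c i * ((i : Bb k u) * T ^ (i - 1))
  have hQ : (Q : F) = qd k u θ := by
    show (Bb k u).val Q = qd k u θ
    have h3 := aeval_der (minpoly (kF k u) θ) θ
    have h4 : qd k u θ = Polynomial.aeval θ (Polynomial.derivative (minpoly (kF k u) θ)) := rfl
    rw [h4, h3, map_sum]
    refine Finset.sum_congr rfl fun i _ => ?_
    rw [map_mul, map_mul, map_pow, map_natCast]
    rfl
  have hΔT : Δ T = 0 := by
    have h3 : Δ (∑ i ∈ Finset.range ((minpoly (kF k u) θ).natDegree + 1), c i * T ^ i) =
        φ Q * Δ T := by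
      rw [hder.sum, map_sum, Finset.sum_mul]
      refine Finset.sum_congr rfl fun i _ => ?_
      rw [hder.mul, hder.pow, hc, mul_zero, add_zero, map_mul, map_mul, map_pow, map_natCast]
      show φ (c i) * ((i : K) * φ T ^ (i - 1) * Δ T) = _
      ring
    rw [hsum0, hder.zero] at h3
    obtain ⟨bq, hbq, hJq'⟩ := hJq
    have h4 : JJ = Q * ⟨bq, hPB hbq⟩ := by
      apply Subtype.ext
      show aeval u J = (Q : F) * bq
      rw [hQ, hJq']
    have h5 : φ Q ≠ 0 := by
      intro h6
      apply hne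
      rw [hjJ, h4, map_mul, h6, zero_mul]
    exact (mul_eq_zero.1 h3.symm).resolve_left h5
  have hΔB : ∀ x (_ : x ∈ PB k u θ) (h : x ∈ Bb k u), Δ ⟨x, h⟩ = 0 := by
    have hs : insert θ (Set.range u) ⊆ Bb k u := by
      rintro x (rfl | ⟨i, rfl⟩)
      · exact hθ
      · exact hu i
    apply hadj (insert θ (Set.range u)) hs
    rintro x (rfl | ⟨i, rfl⟩)
    · exact hΔT
    · exact hU i
  have hΔJ : Δ JJ = 0 := hΔA _ (hJA J) _
  have hfinal : Δ (JJ * a) = 0 := hΔB _ (hJI a a.2) _
  rw [hder.mul, hΔJ, mul_zero, add_zero] at hfinal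
  have h6 : φ JJ ≠ 0 := by
    rw [← hjJ]
    exact hne
  have h7 : Δ a = 0 := (mul_eq_zero.1 hfinal).resolve_left h6
  rw [hΔ, sub_eq_zero] at h7
  rw [hjJ, h7]
  refine Finset.sum_congr rfl fun l _ => ?_
  rw [hbB, hulU]

end Pool.Agent.H77.SFG
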