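import Pool.Agent.H17.SD.Targets

/-!
# Uniqueness of derivations of a finite extension of a rational function field
-/

set_option autoImplicit false

open MvPolynomial SC Pool.Agent.H27.LV
open Pool.Agent.H92.SF Pool.Agent.H3.SF Pool.Agent.H17.SD

namespace Pool.Agent.H77.SFG

theorem pf_DUN : T_DUN := by
  intro k F ι _ _ _ _ u hfin D hD
  have hk : ∀ a ∈ kF k u, D a = 0 := by
    intro a ha
    induction ha using IntermediateField.adjoin_induction with
    | mem x hx =>
      obtain ⟨i, rfl⟩ := hx
      exact hD i
    | algebraMap c => exact D.map_algebraMap c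
    | add x y _ _ hx hy => rw [map_add, hx, hy, add_zero]
    | inv x _ hx => rw [Derivation.leibniz_inv, hx, smul_zero]
    | mul x y _ _ hx hy => rw [Derivation.leibniz, hx, hy, smul_zero, smul_zero, add_zero]
  let D' : Derivation (kF k u) F F := Derivation.mk'
    { toFun := D
      map_add' := fun x y => map_add D x y
      map_smul' := by
        intro c x
        rw [Algebra.smul_def, Derivation.leibniz]
        have h1 : D (algebraMap (kF k u) F c) = 0 := hk _ c.2
        rw [h1, smul_zero, add_zero]
        rfl }
    (by
      intro a b
      exact D.leibniz a b)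
  have hD' : ∀ x, D' x = D x := fun x => rfl
  ext a
  rw [Derivation.coe_zero, Pi.zero_apply, ← hD']
  have hint : IsIntegral (kF k u) a := Algebra.IsIntegral.isIntegral a
  have h1 := Derivation.map_aeval D' (minpoly (kF k u) a) a
  rw [minpoly.aeval, map_zero, smul_eq_mul] at h1
  have hsep : (minpoly (kF k u) a).Separable := (minpoly.irreducible hint).separable
  exact (mul_eq_zero.1 h1.symm).resolve_left
    (hsep.aeval_derivative_ne_zero (minpoly.aeval _ _))

end Pool.Agent.H77.SFG
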